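import Pool.Agent.MP_21eaa0_an.Final

/-!
The spectrum of the generator `M_V` of the absorption semigroup on `L^1(ℝ^d)` is real, for every
symmetric convolution semigroup whose resolvent measures have densities and every regular
potential `V` bounded from below.
-/

open Filter Topology MeasureTheory

namespace Pool.Agent.Results.MP_21eaa0_an.RealSpectrum

open Pool.Agent.MP_21eaa0_an

theorem result (d : ℕ)
    -- the convolution semigroup and the semigroup `M` of operators on `L^1(ℝ^d)`
    (m : ℝ → Measure (Fin d → ℝ)) (hm : IsSymmConvSemigroup m) (hE : HasResolventDensities m)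
    (M : ℝ → LOne d →L[ℂ] LOne d) (hM : IsConvOp m M)
    -- the potential, bounded from below
    (V : (Fin d → ℝ) → ℝ) (hV : Measurable V) (c : ℝ) (hc : ∀ x, -c ≤ V x)
    -- `T_n` is generated by `M - V_n`, and `T(t) f = lim_n T_n(t) f`
    (Tn : ℕ → ℝ → LOne d →L[ℂ] LOne d) (hTn : ∀ n, IsGenByMinus M V n (Tn n))
    (T : ℝ → LOne d →L[ℂ] LOne d)
    (hT : ∀ t, 0 ≤ t → ∀ f, Tendsto (fun n => Tn n t f) atTop (𝓝 (T t f)))
    -- `V` is regular
    (hreg : ∀ f, Tendsto (fun t => T t f) (𝓝[>] 0) (𝓝 f)) :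
    spec (IsGen T) ⊆ {z : ℂ | z.im = 0} := by
  have hM' : IsConvOpL m M := hM
  have hTn' : ∀ n, IsGenByMinusL M V n (Tn n) := hTn
  exact fun z hz => main hm hE hM' hV hc hTn' hT hreg z hz

end Pool.Agent.Results.MP_21eaa0_an.RealSpectrum
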